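import Pool.Agent.Lib.H8.Arith
import Pool.Agent.Lib.H8.CList

/-!
MP_1b3940_lc: one piece of open negative information suffices to learn all r.e. languages
behaviourally correctly with finitely many anomalies.
-/

namespace Pool.Agent.Results.MP_1b3940_lc.Yes

open Pool.Agent.Lib.H8 CList Filter Nat.Partrec

/-- The `e`-th r.e. set. -/
def W (e : ℕ) : Set ℕ := {x | ((Denumerable.ofNat Code e).eval x).Dom}

/-- Data items: `none` is the pause symbol, `some (x, true)` is positive, `some (x, false)` is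
negative information about `x`. -/
abbrev Item := Option (ℕ × Bool)

def PosInfo (I : ℕ → Item) : Set ℕ := {x | ∃ n, I n = some (x, true)}

def NegInfo (I : ℕ → Item) : Set ℕ := {x | ∃ n, I n = some (x, false)}

/-- `M` identifies `L` in the sense `NegO^i TxtBc^*`. -/
def Ident (i : ℕ) (M : List Item → ℕ) (L : Set ℕ) : Prop :=
  ∃ S : Finset ℕ, S.card ≤ i ∧ (S : Set ℕ) ⊆ Lᶜ ∧ ∀ I : ℕ → Item,
    PosInfo I = L → (S : Set ℕ) ⊆ NegInfo I → NegInfo I ⊆ Lᶜ →
      ∀ᶠ n in atTop, (symmDiff (W (M ((List.range n).map I))) L).Finite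

def v (o : Item) : ℕ := (o.getD (0, true)).1

def Pc (A : ℕ → ℕ → Prop) (σ : List Item) (k : ℕ) : Prop :=
  ∀ o ∈ σ, o = some (v o, true) → A k (v o)

def Good (A : ℕ → ℕ → Prop) (σ : List Item) (k : ℕ) : Prop :=
  Pc A σ k ∧ (∀ o ∈ σ, o = some (v o, false) → ¬ A k (v o)) ∧
    ∀ j ∈ List.range k, (∀ y ∈ List.range σ.length, A k y → A j y) ∨ ¬ Pc A σ j

def As (s k y : ℕ) : Prop := (Code.evaln s (Denumerable.ofNat Code k) y).isSome = true

theorem as_ev (k y : ℕ) : ∀ᶠ s in atTop, (As s k y ↔ y ∈ W k) := by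
  by_cases h : y ∈ W k
  · obtain ⟨s, hs⟩ := Code.evaln_complete.1 (Part.get_mem h)
    filter_upwards [eventually_ge_atTop s] with t ht
    exact iff_of_true (Option.isSome_iff_exists.2 ⟨_, Code.evaln_mono ht hs⟩) h
  · refine Eventually.of_forall fun s => iff_of_false (fun e => h ?_) h
    obtain ⟨x, hx⟩ := Option.isSome_iff_exists.1 e
    exact Part.dom_iff_mem.2 ⟨x, Code.evaln_sound hx⟩

theorem as_lt {s k y : ℕ} (h : As s k y) : y < s ∧ y ∈ W k := by
  obtain ⟨x, hx⟩ := Option.isSome_iff_exists.1 h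
  exact ⟨Code.evaln_bound hx, Part.dom_iff_mem.2 ⟨x, Code.evaln_sound hx⟩⟩

theorem good_ev (σ : List Item) (k : ℕ) :
    ∀ᶠ s in atTop, (Good (As s) σ k ↔ Good (fun k y => y ∈ W k) σ k) := by
  have h1 : ∀ᶠ s in atTop, ∀ j ∈ Finset.range (k + 1),
      ∀ y ∈ Finset.range σ.length ∪ (σ.map v).toFinset, (As s j y ↔ y ∈ W j) := by
    simp only [eventually_all_finset]
    exact fun j _ y _ => as_ev j y
  filter_upwards [h1] with s hs
  have a : ∀ j ≤ k, ∀ o ∈ σ, (As s j (v o) ↔ v o ∈ W j) := fun j hj o ho =>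
    hs j (by simp; omega) _ (by simp; exact Or.inr ⟨o, ho, rfl⟩)
  have b : ∀ j ≤ k, ∀ y ∈ List.range σ.length, (As s j y ↔ y ∈ W j) := fun j hj y hy =>
    hs j (by simp; omega) _ (by simp at hy ⊢; exact Or.inl hy)
  have c : ∀ j ≤ k, (Pc (As s) σ j ↔ Pc (fun k y => y ∈ W k) σ j) := fun j hj =>
    forall₂_congr fun o ho => by rw [a j hj o ho]
  refine and_congr (c k le_rfl) (and_congr (forall₂_congr fun o ho => by rw [a k le_rfl o ho])
    (forall₂_congr fun j hj => ?_))
  have hj' := (List.mem_range.1 hj).le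
  exact or_congr (forall₂_congr fun y hy => by rw [b k le_rfl y hy, b j hj' y hy])
    (not_congr (c j hj'))

theorem as_comp {α : Type} [Primcodable α] {s k y : α → ℕ} (hs : Computable s) (hk : Computable k)
    (hy : Computable y) : ComputablePred fun a => As (s a) (k a) (y a) :=
  ceq (Primrec.option_isSome.to_comp.comp (Code.primrec_evaln.to_comp.comp
    ((hs.pair ((Primrec.ofNat Code).to_comp.comp hk)).pair hy))) (Computable.const true)

theorem v_comp : Computable v :=
  (Primrec.fst.comp (Primrec.option_getD.comp Primrec.id (Primrec.const _))).to_comp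

theorem item_comp {α : Type} [Primcodable α] (b : Bool) :
    ComputablePred fun q : α × Item => q.2 = some (v q.2, b) :=
  ceq Computable.snd (Computable.option_some.comp
    ((v_comp.comp Computable.snd).pair (Computable.const b)))

theorem pc_comp {α : Type} [Primcodable α] {s k : α → ℕ} {σ : α → List Item} (hs : Computable s)
    (hσ : Computable σ) (hk : Computable k) : ComputablePred fun a => Pc (As (s a)) (σ a) (k a) :=
  call hσ (cimp (item_comp true) (as_comp (hs.comp Computable.fst) (hk.comp Computable.fst)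
    (v_comp.comp Computable.snd)))

theorem good_comp {α : Type} [Primcodable α] {s k : α → ℕ} {σ : α → List Item} (hs : Computable s)
    (hσ : Computable σ) (hk : Computable k) :
    ComputablePred fun a => Good (As (s a)) (σ a) (k a) := by
  have h1 : ComputablePred fun q : α × ℕ =>
      ∀ y ∈ List.range (σ q.1).length, As (s q.1) (k q.1) y → As (s q.1) q.2 y :=
    call (Primrec.list_range.to_comp.comp (Computable.list_length.comp (hσ.comp Computable.fst)))
      (cimp (as_comp (hs.comp (Computable.fst.comp Computable.fst))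
        (hk.comp (Computable.fst.comp Computable.fst)) Computable.snd)
        (as_comp (hs.comp (Computable.fst.comp Computable.fst))
          (Computable.snd.comp Computable.fst) Computable.snd))
  exact cand (pc_comp hs hσ hk) (cand (call hσ (cimp (item_comp false) (as_comp
    (hs.comp Computable.fst) (hk.comp Computable.fst) (v_comp.comp Computable.snd)).not))
    (call (Primrec.list_range.to_comp.comp hk) (cor h1
      (pc_comp (hs.comp Computable.fst) (hσ.comp Computable.fst) Computable.snd).not)))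

theorem learner : ∃ M : List Item → ℕ, Computable M ∧ ∀ σ x, x ∈ W (M σ) ↔
    ∃ s k, Good (As s) σ k ∧ (∀ j ∈ List.range k, ¬ Good (As s) σ j) ∧ As s k x := by
  classical
  have a1 : Computable fun q : (List Item × ℕ) × ℕ => q.2.unpair.1 := Arith.u1.comp Computable.snd
  have a2 : Computable fun q : (List Item × ℕ) × ℕ => q.2.unpair.2 := Arith.u2.comp Computable.snd
  have a3 : Computable fun q : (List Item × ℕ) × ℕ => q.1.1 := Computable.fst.comp Computable.fst
  have hB : ComputablePred fun q : (List Item × ℕ) × ℕ =>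
      Good (As q.2.unpair.1) q.1.1 q.2.unpair.2 ∧ (∀ j ∈ List.range q.2.unpair.2,
        ¬ Good (As q.2.unpair.1) q.1.1 j) ∧ As q.2.unpair.1 q.2.unpair.2 q.1.2 :=
    cand (good_comp a1 a3 a2) (cand (call (Primrec.list_range.to_comp.comp a2) (good_comp
      (a1.comp Computable.fst) (a3.comp Computable.fst) Computable.snd).not)
      (as_comp a1 a2 (Computable.snd.comp Computable.fst)))
  obtain ⟨M, h1, h2⟩ := Arith.smn (Partrec.rfind hB.decide.partrec.to₂)
  refine ⟨M, h1, fun σ x => ?_⟩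
  rw [W, Set.mem_ofPred_eq, h2]
  refine Nat.rfind_dom.trans ?_
  constructor
  · rintro ⟨t, ht, -⟩
    exact ⟨t.unpair.1, t.unpair.2, by simpa using ht⟩
  · rintro ⟨s, k, h⟩
    exact ⟨Nat.pair s k, by simpa using h, by intros; trivial⟩

theorem out_fin {M : List Item → ℕ} (hM : ∀ σ x, x ∈ W (M σ) ↔
    ∃ s k, Good (As s) σ k ∧ (∀ j ∈ List.range k, ¬ Good (As s) σ j) ∧ As s k x)
    {σ : List Item} {k : ℕ} (h1 : Good (fun k y => y ∈ W k) σ k)
    (h2 : ∀ j < k, ¬ Good (fun k y => y ∈ W k) σ j) : (symmDiff (W (M σ)) (W k)).Finite := by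
  have e : ∀ᶠ s in atTop, ∀ j ∈ Finset.range (k + 1),
      (Good (As s) σ j ↔ Good (fun k y => y ∈ W k) σ j) :=
    (eventually_all_finset _).2 fun j _ => good_ev σ j
  obtain ⟨s0, h0⟩ := eventually_atTop.1 e
  have a : ∀ s ≥ s0, Good (As s) σ k ∧ ∀ j ∈ List.range k, ¬ Good (As s) σ j := fun s hs =>
    ⟨(h0 s hs k (by simp)).2 h1, fun j hj e => h2 j (List.mem_range.1 hj)
      ((h0 s hs j (by simp at hj ⊢; omega)).1 e)⟩
  refine (Set.finite_lt_nat s0).subset ?_
  rintro x (⟨hx, hk⟩ | ⟨hk, hx⟩)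
  · obtain ⟨s, j, b1, b2, b3⟩ := (hM σ x).1 hx
    by_contra hs
    have hs : s0 ≤ s := by have := (as_lt b3).1; simp at hs; omega
    rcases lt_trichotomy j k with l | rfl | l
    · exact (a s hs).2 j (List.mem_range.2 l) b1
    · exact hk (as_lt b3).2
    · exact b2 k (List.mem_range.2 l) (a s hs).1
  · obtain ⟨s, b1, b2⟩ := ((as_ev k x).and (eventually_ge_atTop s0)).exists
    exact absurd ((hM σ x).2 ⟨s, k, (a s b2).1, (a s b2).2, b1.2 hk⟩) hx

theorem mem_ev (I : ℕ → Item) (m : ℕ) : ∀ᶠ n in atTop, I m ∈ (List.range n).map I := by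
  filter_upwards [eventually_gt_atTop m] with n hn
  exact List.mem_map.2 ⟨m, List.mem_range.2 hn, rfl⟩

theorem result (i : ℕ) (hi : 1 ≤ i) :
    ∃ M : List Item → ℕ, Computable M ∧ ∀ e, Ident i M (W e) := by
  classical
  obtain ⟨M, c, hM⟩ := learner
  refine ⟨M, c, fun e => ?_⟩
  let J : ℕ → Prop := fun j => W e ⊆ W j ∧ W j ≠ W e ∧ ∀ j' < j, W e ⊆ W j' → W j ⊆ W j'
  obtain ⟨S, s1, s2, s3⟩ : ∃ S : Finset ℕ, S.card ≤ i ∧ (S : Set ℕ) ⊆ (W e)ᶜ ∧
      ∀ j < e, J j → ∃ x ∈ S, x ∈ W j := by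
    by_cases h : ∃ j < e, J j
    · obtain ⟨j0, l0, h0⟩ := h
      have g := Nat.findGreatest_spec (P := J) (Nat.le_pred_of_lt l0) h0
      obtain ⟨x, x1, x2⟩ := Set.exists_of_ssubset (g.1.ssubset_of_ne g.2.1.symm)
      refine ⟨{x}, by simpa using hi, by simpa using x2, fun j l hj => ⟨x, by simp, ?_⟩⟩
      rcases (Nat.le_findGreatest (Nat.le_pred_of_lt l) hj).lt_or_eq with l' | l'
      · exact g.2.2 j l' hj.1 x1
      · exact l' ▸ x1
    · exact ⟨∅, by simp, by simp, fun j l hj => absurd ⟨j, l, hj⟩ h⟩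
  refine ⟨S, s1, s2, fun I p1 p2 p3 => ?_⟩
  have pc : ∀ n j, W e ⊆ W j → Pc (fun k y => y ∈ W k) ((List.range n).map I) j :=
    fun n j h o ho e => by
      obtain ⟨m, -, rfl⟩ := List.mem_map.1 ho
      exact h (p1 ▸ ⟨m, e⟩)
  have npc : ∀ j, ¬ W e ⊆ W j →
      ∀ᶠ n in atTop, ¬ Pc (fun k y => y ∈ W k) ((List.range n).map I) j := fun j h => by
    obtain ⟨x, x1, x2⟩ := Set.not_subset.1 h
    obtain ⟨m, hm⟩ : x ∈ PosInfo I := p1 ▸ x1
    filter_upwards [mem_ev I m] with n hn hp
    exact x2 (by simpa [hm, v] using hp _ hn)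
  have k1 : ∀ᶠ n in atTop, Good (fun k y => y ∈ W k) ((List.range n).map I) e := by
    have : ∀ᶠ n in atTop, ∀ j ∈ Finset.range e,
        W e ⊆ W j ∨ ¬ Pc (fun k y => y ∈ W k) ((List.range n).map I) j :=
      (eventually_all_finset _).2 fun j _ => by
        by_cases h : W e ⊆ W j
        · simp [h]
        · exact (npc j h).mono fun n hn => Or.inr hn
    filter_upwards [this] with n hn
    refine ⟨pc n e le_rfl, fun o ho e => ?_, fun j hj =>
      (hn j (by simpa using hj)).imp (fun h y _ hy => h hy) id⟩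
    obtain ⟨m, -, rfl⟩ := List.mem_map.1 ho
    exact p3 ⟨m, e⟩
  have k2 : ∀ᶠ n in atTop, ∀ j ∈ Finset.range e,
      Good (fun k y => y ∈ W k) ((List.range n).map I) j → W j = W e :=
    (eventually_all_finset _).2 fun j hj => by
      by_cases h1 : W e ⊆ W j
      swap
      · exact (npc j h1).mono fun n hn hg => absurd hg.1 hn
      by_cases h2 : W j = W e
      · simp [h2]
      by_cases h3 : ∀ j' < j, W e ⊆ W j' → W j ⊆ W j'
      · obtain ⟨x, x1, x2⟩ := s3 j (by simpa using hj) ⟨h1, h2, h3⟩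
        obtain ⟨m, hm⟩ := p2 x1
        filter_upwards [mem_ev I m] with n hn hg
        exact absurd x2 (by simpa [hm, v] using hg.2.1 _ hn)
      · push Not at h3
        obtain ⟨j', l, a1, a2⟩ := h3
        obtain ⟨y, y1, y2⟩ := Set.not_subset.1 a2
        filter_upwards [eventually_gt_atTop y] with n hn hg
        rcases hg.2.2 j' (List.mem_range.2 l) with b | b
        · exact absurd (b y (by simpa using hn) y1) y2
        · exact absurd (pc n j' a1) b
  filter_upwards [k1, k2] with n h1 h2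
  have hex : ∃ k, Good (fun k y => y ∈ W k) ((List.range n).map I) k := ⟨e, h1⟩
  have := out_fin hM (Nat.find_spec hex) fun j hj => Nat.find_min hex hj
  rcases (Nat.find_min' hex h1).lt_or_eq with l | l
  · rwa [h2 _ (by simpa using l) (Nat.find_spec hex)] at this
  · rwa [l] at this

end Pool.Agent.Results.MP_1b3940_lc.Yes
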